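import Pool.Agent.Helper48.RE.Good

/-!
# Counting arguments for the lower bound
-/

set_option autoImplicit false

namespace Pool.Agent.Helper97.RE

open Finset

/-- Markov type bound for the set of bad parameters -/
theorem card_bad_le {A : Type} [Fintype A] {p : ℕ} [Fact p.Prime] (H : A → ZMod p → Prop)
    (s C C1 : ℕ) (hp : 2 * (C1 + s) ≤ p)
    (h : ∀ t : Fin s → ZMod p, Function.Injective t →
      p ^ s * Nat.card {c : A // ∀ j, H c (t j)} ≤ C * Fintype.card A) :
    Nat.card {c : A // Nat.card {t : ZMod p // ¬ H c t} ≤ C1} * p ^ s ≤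
      2 ^ s * C * Fintype.card A := by
  classical
  have hp0 : 0 < p := (Fact.out : p.Prime).pos
  have : NeZero p := ⟨hp0.ne'⟩
  -- pairs
  have h1 : Nat.card (Σ t : Fin s ↪ ZMod p, {c : A // ∀ j, H c (t j)}) ≤ C * Fintype.card A := by
    rw [Nat.card_sigma]
    have h2 : p ^ s * ∑ t : Fin s ↪ ZMod p, Nat.card {c : A // ∀ j, H c (t j)} ≤
        p ^ s * (C * Fintype.card A) := by
      rw [Finset.mul_sum]
      refine (Finset.sum_le_card_nsmul _ _ _ (fun (t : Fin s ↪ ZMod p) _ => h (⇑t) t.injective)).trans ?_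
      rw [smul_eq_mul, Finset.card_univ]
      refine Nat.mul_le_mul_right _ ?_
      rw [Fintype.card_embedding_eq, Fintype.card_fin, ZMod.card]
      exact Nat.descFactorial_le_pow _ _
    exact Nat.le_of_mul_le_mul_left h2 (Nat.pow_pos hp0)
  have h3 : ∀ c : A, Nat.card {t : ZMod p // ¬ H c t} ≤ C1 →
      p ^ s ≤ 2 ^ s * Nat.card {t : Fin s ↪ ZMod p // ∀ j, H c (t j)} := by
    intro c hc
    have h4 : Nat.card {t : ZMod p // H c t} + Nat.card {t : ZMod p // ¬ H c t} = p := by
      rw [Nat.card_eq_fintype_card, Nat.card_eq_fintype_card, Fintype.card_subtype_compl,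
        ZMod.card]
      have : Fintype.card {t : ZMod p // H c t} ≤ p := by
        have := Fintype.card_subtype_le (fun t : ZMod p => H c t)
        rwa [ZMod.card] at this
      omega
    have h5 : Nat.card {t : Fin s ↪ ZMod p // ∀ j, H c (t j)} =
        (Nat.card {t : ZMod p // H c t}).descFactorial s := by
      have e : {t : Fin s ↪ ZMod p // ∀ j, H c (t j)} ≃ (Fin s ↪ {t : ZMod p // H c t}) :=
        { toFun := fun t => ⟨fun j => ⟨t.1 j, t.2 j⟩, fun a b hab =>
            t.1.injective (congrArg Subtype.val hab)⟩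
          invFun := fun t => ⟨⟨fun j => (t j).1, fun a b hab => t.injective (Subtype.ext hab)⟩,
            fun j => (t j).2⟩
          left_inv := fun t => by ext j; rfl
          right_inv := fun t => by ext j; rfl }
      rw [Nat.card_congr e, Nat.card_eq_fintype_card, Fintype.card_embedding_eq, Fintype.card_fin,
        Nat.card_eq_fintype_card]
    rw [h5]
    set m := Nat.card {t : ZMod p // H c t} with hm
    have h6 : (m + 1 - s) ^ s ≤ m.descFactorial s := Nat.pow_sub_le_descFactorial m s
    refine le_trans ?_ (Nat.mul_le_mul_left _ h6)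
    rw [← mul_pow]
    apply Nat.pow_le_pow_left
    omega
  have h7 : Nat.card {c : A // Nat.card {t : ZMod p // ¬ H c t} ≤ C1} * p ^ s ≤
      2 ^ s * Nat.card (Σ c : A, {t : Fin s ↪ ZMod p // ∀ j, H c (t j)}) := by
    rw [Nat.card_sigma, Finset.mul_sum, Nat.card_eq_fintype_card, Fintype.card_subtype,
      ← smul_eq_mul, ← Finset.sum_const]
    refine le_trans (Finset.sum_le_sum (fun c hc => h3 c (Finset.mem_filter.1 hc).2)) ?_
    exact Finset.sum_le_sum_of_subset (Finset.filter_subset _ _)
  have e2 : (Σ c : A, {t : Fin s ↪ ZMod p // ∀ j, H c (t j)}) ≃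
      (Σ t : Fin s ↪ ZMod p, {c : A // ∀ j, H c (t j)}) :=
    { toFun := fun x => ⟨x.2.1, x.1, x.2.2⟩
      invFun := fun x => ⟨x.2.1, x.1, x.2.2⟩
      left_inv := fun x => rfl
      right_inv := fun x => rfl }
  rw [Nat.card_congr e2] at h7
  refine h7.trans ?_
  rw [mul_assoc]
  exact Nat.mul_le_mul_left _ h1

/-- for each pair of points the proportion of parameters with an edge is (at least) `p^(-v)` -/
theorem card_adj_ge {D d v p : ℕ} [Fact p.Prime] (x y : Fin d → ZMod p) :
    Fintype.card (Par D d v p) ≤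
      Nat.card {c : Par D d v p // adjP (ZMod p) c x y} * p ^ v := by
  classical
  have hp0 : 0 < p := (Fact.out : p.Prime).pos
  have : NeZero p := ⟨hp0.ne'⟩
  set ev : Par D d v p → Fin v → ZMod p := fun c l =>
    ∑ α : (Fin d ⊕ Fin d) → Fin (D + 1), c l α * ∏ i, (Sum.elim x y i) ^ (α i : ℕ) with hev
  set z : (Fin d ⊕ Fin d) → Fin (D + 1) := fun _ => 0 with hz
  have hevsub : ∀ c l, ev (fun l α => c l α - if α = z then ev c l else 0) l = 0 := by
    intro c l
    have h1 : ev (fun l α => c l α - if α = z then ev c l else 0) l = ev c l -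
        ∑ α : (Fin d ⊕ Fin d) → Fin (D + 1), (if α = z then ev c l else 0) *
          ∏ i, (Sum.elim x y i) ^ (α i : ℕ) := by
      rw [hev]
      simp only
      rw [← Finset.sum_sub_distrib]
      refine Finset.sum_congr rfl (fun α _ => ?_)
      ring
    rw [h1, Finset.sum_eq_single z]
    · simp [hz]
    · intro α _ hα
      simp [hα]
    · simp
  have hinj : Function.Injective (fun c : Par D d v p =>
      ((⟨fun l α => c l α - if α = z then ev c l else 0, by
        intro l
        have := hevsub c l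
        simpa [hev] using this⟩ : {c : Par D d v p // adjP (ZMod p) c x y}), ev c)) := by
    intro c c' hcc
    simp only [Prod.mk.injEq] at hcc
    obtain ⟨h1, h2⟩ := hcc
    funext l α
    have h3 := congrFun (congrFun (congrArg Subtype.val h1) l) α
    simp only at h3
    rw [h2] at h3
    simpa using h3
  have h4 := Nat.card_le_card_of_injective _ hinj
  rw [Nat.card_prod, Nat.card_eq_fintype_card] at h4
  refine h4.trans (le_of_eq ?_)
  congr 1
  rw [Nat.card_eq_fintype_card, Fintype.card_fun, ZMod.card, Fintype.card_fin]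

/-- choosing a good parameter with many edges -/
theorem exists_good {A : Type} [Fintype A] [Nonempty A] (N : A → ℕ) (bad : A → Prop)
    (p v q C3 : ℕ) (hq : 0 < q) (hp : 2 * C3 ≤ p) (hN : ∀ c, N c ≤ q)
    (hsum : q * Fintype.card A ≤ p ^ v * ∑ c, N c)
    (hbad : Nat.card {c // bad c} * p ^ (v + 1) ≤ C3 * Fintype.card A) (hp0 : 0 < p) :
    ∃ c, ¬ bad c ∧ q ≤ 2 * p ^ v * N c := by
  classical
  by_contra hcon
  push Not at hcon
  have h1 : ∑ c, (2 * p ^ v * N c) ≤
      Nat.card {c // bad c} * (2 * p ^ v * q) + Fintype.card A * (q - 1) := by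
    rw [← Finset.sum_filter_add_sum_filter_not Finset.univ bad]
    refine add_le_add ?_ ?_
    · rw [Nat.card_eq_fintype_card, Fintype.card_subtype]
      refine (Finset.sum_le_card_nsmul _ _ _ (fun c _ => ?_)).trans (le_of_eq (smul_eq_mul _ _))
      exact Nat.mul_le_mul_left _ (hN c)
    · refine (Finset.sum_le_card_nsmul _ _ (q - 1) (fun c hc => ?_)).trans ?_
      · have := hcon c (Finset.mem_filter.1 hc).2
        omega
      · rw [smul_eq_mul]
        exact Nat.mul_le_mul_right _ (Finset.card_le_univ _)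
  rw [← Finset.mul_sum] at h1
  -- multiply by p
  have h2 : p * (2 * p ^ v * ∑ c, N c) ≤
      2 * q * (C3 * Fintype.card A) + p * (Fintype.card A * (q - 1)) := by
    refine (Nat.mul_le_mul_left p h1).trans ?_
    rw [mul_add]
    refine Nat.add_le_add_right ?_ _
    calc p * (Nat.card {c // bad c} * (2 * p ^ v * q))
        = 2 * q * (Nat.card {c // bad c} * p ^ (v + 1)) := by ring
      _ ≤ 2 * q * (C3 * Fintype.card A) := Nat.mul_le_mul_left _ hbad
  have h3 : p * (2 * (q * Fintype.card A)) ≤ p * (2 * p ^ v * ∑ c, N c) := by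
    rw [mul_assoc 2]
    exact Nat.mul_le_mul_left _ (Nat.mul_le_mul_left _ hsum)
  have h4 := h3.trans h2
  have hA : 0 < Fintype.card A := Fintype.card_pos
  obtain ⟨q', rfl⟩ : ∃ q', q = q' + 1 := ⟨q - 1, by omega⟩
  simp only [Nat.add_sub_cancel] at h4
  have h5 : 2 * (q' + 1) * (C3 * Fintype.card A) ≤ (q' + 1) * Fintype.card A * p := by
    calc 2 * (q' + 1) * (C3 * Fintype.card A) = (q' + 1) * Fintype.card A * (2 * C3) := by ring
      _ ≤ (q' + 1) * Fintype.card A * p := Nat.mul_le_mul_left _ hp
  have h6 : p * (2 * ((q' + 1) * Fintype.card A)) ≤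
      (q' + 1) * Fintype.card A * p + p * (Fintype.card A * q') :=
    h4.trans (Nat.add_le_add_right h5 _)
  have h7 : 0 < p * Fintype.card A := Nat.mul_pos hp0 hA
  nlinarith

end Pool.Agent.Helper97.RE
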