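import Pool.Agent.Helper48.RE.System
import Pool.Agent.Helper21.RE.ProjDich

/-!
# Few copies over `F_p` unless some coordinate is almost surjective over the algebraic closure
-/

set_option autoImplicit false

namespace Pool.Agent.Helper97.RE

open MvPolynomial Finset

/-- the value `t` of the coordinate `(a0, i0)` is hit by a copy over the algebraic closure -/
def Hit {V : Type} (T : SimpleGraph V) (root : V → Prop) {D d v p : ℕ} [Fact p.Prime]
    (c : Par D d v p) (σ : V → Bool) (r : V → Fin d → ZMod p) (a0 : V) (i0 : Fin d)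
    (t : ZMod p) : Prop :=
  ∃ y : V → Fin d → AlgebraicClosure (ZMod p),
    IsCopy T root (AlgebraicClosure (ZMod p)) c σ r y ∧ y a0 i0 = algebraMap _ _ t

/-- the values `t` of the coordinate `(a0, i0)` are hit with at most `C1` exceptions -/
def BadAt {V : Type} (T : SimpleGraph V) (root : V → Prop) {D d v p : ℕ} [Fact p.Prime]
    (C1 : ℕ) (c : Par D d v p) (σ : V → Bool) (r : V → Fin d → ZMod p) (a0 : V) (i0 : Fin d) :
    Prop :=
  Nat.card {t : ZMod p // ¬ Hit T root c σ r a0 i0 t} ≤ C1

/-- if `c` is good, there are few copies over `F_p` -/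
theorem card_copies_le {V : Type} [Fintype V] (T : SimpleGraph V) (root : V → Prop)
    (D d v : ℕ) (hd : 0 < d) : ∃ C1 C2 : ℕ, ∀ (p : ℕ) [Fact p.Prime], C1 < p →
    ∀ (c : Par D d v p) (σ : V → Bool) (r : V → Fin d → ZMod p),
    (∀ a0 i0, ¬ root a0 → ¬ BadAt T root C1 c σ r a0 i0) →
    Nat.card {y : V → Fin d → ZMod p // IsCopy T root (ZMod p) c σ r y} ≤ C2 := by
  classical
  obtain ⟨C1, hC1⟩ := proj_dich (Fintype.card V * d + 1)
    ((d + d) * D + (Fintype.card V * Fintype.card V + 1))
    (Fintype.card V * d + (Fintype.card V * (Fintype.card V * v) + 1))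
  refine ⟨C1 + 1, Fintype.card (V → V → Fin d) * (C1 + 1) ^ Fintype.card (V × Fin d), ?_⟩
  intro p _ hp c σ r hgood
  have : NeZero p := ⟨(Fact.out : p.Prime).ne_zero⟩
  -- separated copies
  have key : ∀ τ : V → V → Fin d, Nat.card {y : V → Fin d → ZMod p //
      IsCopy T root (ZMod p) c σ r y ∧ ∀ a b, a ≠ b → σ a = σ b → y a (τ a b) ≠ y b (τ a b)} ≤
      (C1 + 1) ^ Fintype.card (V × Fin d) := by
    intro τ
    -- all projections are small
    have hsmall : ∀ a i, Nat.card {t : ZMod p // ∃ z : Option (V × Fin d) →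
        AlgebraicClosure (ZMod p), (∀ j, aeval z (sys T root c σ r τ j) = 0) ∧
        z (some (a, i)) = algebraMap _ _ t} ≤ C1 + 1 := by
      intro a i
      have h := hC1 p (Option (V × Fin d)) (SysI V d v) (by simp)
        (by simp) (sys T root c σ r τ)
        (fun j => sys_degree T root c σ r τ j) (some (a, i))
      rcases h with h | h
      · exact h.trans (Nat.le_succ _)
      · by_cases ha : root a
        · -- only one value
          have : Nat.card {t : ZMod p // ∃ z : Option (V × Fin d) →
              AlgebraicClosure (ZMod p), (∀ j, aeval z (sys T root c σ r τ j) = 0) ∧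
              z (some (a, i)) = algebraMap _ _ t} ≤ Nat.card Unit := by
            refine Nat.card_le_card_of_injective (fun _ => ()) ?_
            rintro ⟨t, z, hz, hzt⟩ ⟨t', z', hz', hzt'⟩ _
            apply Subtype.ext
            have h1 := (isCopy_of_sol T root c σ r τ z hz).1 a ha i
            have h2 := (isCopy_of_sol T root c σ r τ z' hz').1 a ha i
            simp only at h1 h2
            have h3 : algebraMap (ZMod p) (AlgebraicClosure (ZMod p)) t =
                algebraMap (ZMod p) (AlgebraicClosure (ZMod p)) t' := by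
              rw [← hzt, ← hzt', h1, h2]
            exact (algebraMap (ZMod p) (AlgebraicClosure (ZMod p))).injective h3
          have h1 : Nat.card Unit = 1 := by simp
          omega
        · exfalso
          apply hgood a i ha
          refine le_trans ?_ (h.trans (Nat.le_succ _))
          refine Nat.card_le_card_of_injective
            (fun t => ⟨t.1, fun ⟨z, hz, hzt⟩ => t.2 ⟨_, isCopy_of_sol T root c σ r τ z hz, hzt⟩⟩) ?_
          intro t t' htt
          apply Subtype.ext
          simpa using htt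
    -- inject
    have hinj : Nat.card {y : V → Fin d → ZMod p //
        IsCopy T root (ZMod p) c σ r y ∧ ∀ a b, a ≠ b → σ a = σ b → y a (τ a b) ≠ y b (τ a b)} ≤
        Nat.card ((ai : V × Fin d) → {t : ZMod p // ∃ z : Option (V × Fin d) →
          AlgebraicClosure (ZMod p), (∀ j, aeval z (sys T root c σ r τ j) = 0) ∧
          z (some (ai.1, ai.2)) = algebraMap _ _ t}) := by
      refine Nat.card_le_card_of_injective (fun y ai => ⟨y.1 ai.1 ai.2, ?_⟩) ?_
      · obtain ⟨z, hz, hz'⟩ := exists_sol_of_isCopy (E := AlgebraicClosure (ZMod p)) T root c σ r τ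
          y.1 y.2.1 y.2.2
        exact ⟨z, hz, hz' _ _⟩
      · intro y y' hyy
        apply Subtype.ext
        funext a i
        exact congrArg Subtype.val (congrFun hyy (a, i))
    refine hinj.trans ?_
    rw [Nat.card_pi]
    refine (Finset.prod_le_prod' (fun ai _ => hsmall ai.1 ai.2)).trans ?_
    rw [Finset.prod_const, Finset.card_univ]
  -- every copy is separated by some `τ`
  have hτ : ∀ y : {y : V → Fin d → ZMod p // IsCopy T root (ZMod p) c σ r y},
      ∃ τ : V → V → Fin d, ∀ a b, a ≠ b → σ a = σ b → y.1 a (τ a b) ≠ y.1 b (τ a b) := by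
    intro y
    have : ∀ a b, ∃ i, (a ≠ b → σ a = σ b → y.1 a i ≠ y.1 b i) := by
      intro a b
      by_cases h : a ≠ b ∧ σ a = σ b
      · obtain ⟨i, hi⟩ := Function.ne_iff.1 (y.2.2.2 a b h.1 h.2)
        exact ⟨i, fun _ _ => hi⟩
      · exact ⟨⟨0, hd⟩, fun h1 h2 => absurd ⟨h1, h2⟩ h⟩
    choose τ hτ using this
    exact ⟨τ, hτ⟩
  choose τ hτ using hτ
  have hcov : Nat.card {y : V → Fin d → ZMod p // IsCopy T root (ZMod p) c σ r y} ≤
      Nat.card (Σ τ : V → V → Fin d, {y : V → Fin d → ZMod p //
        IsCopy T root (ZMod p) c σ r y ∧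
          ∀ a b, a ≠ b → σ a = σ b → y a (τ a b) ≠ y b (τ a b)}) := by
    refine Nat.card_le_card_of_injective (fun y => ⟨τ y, y.1, y.2, hτ y⟩) ?_
    intro y y' hyy
    simp only [Sigma.mk.injEq] at hyy
    obtain ⟨h1, h2⟩ := hyy
    apply Subtype.ext
    have h3 : ∀ (τ τ' : V → V → Fin d) (h : τ = τ') (u : {y : V → Fin d → ZMod p //
        IsCopy T root (ZMod p) c σ r y ∧
          ∀ a b, a ≠ b → σ a = σ b → y a (τ a b) ≠ y b (τ a b)})
        (w : {y : V → Fin d → ZMod p // IsCopy T root (ZMod p) c σ r y ∧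
          ∀ a b, a ≠ b → σ a = σ b → y a (τ' a b) ≠ y b (τ' a b)}),
        HEq u w → u.1 = w.1 := by
      intro τ τ' h u w huw
      subst h
      rw [eq_of_heq huw]
    exact h3 _ _ h1 _ _ h2
  refine hcov.trans ?_
  rw [Nat.card_sigma]
  refine (Finset.sum_le_card_nsmul _ _ _ (fun τ _ => key τ)).trans ?_
  rw [Finset.card_univ, smul_eq_mul]

end Pool.Agent.Helper97.RE
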