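import Pool.Agent.Helper48.RE.LowerFin
import Pool.Agent.Helper93.RE.Codim

/-!
# The lower bound (A3) for S07133
-/

set_option autoImplicit false

namespace Pool.Agent.Helper97.RE

/-- A3: the lower bound -/
theorem lower {V : Type} [Fintype V] (T : SimpleGraph V) (root : V → Prop) (lam : ℝ)
    (h0 : 0 < lam) (h1 : lam ≤ 1) (hT : ∀ x, ∃ y, T.Adj x y) (hbal : Bal T root lam) :
    ∃ c : ℝ, 0 < c ∧ ∃ P N0 : ℕ, ∀ n, N0 ≤ n → ∃ G : SimpleGraph (Fin n),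
      c * (n : ℝ) ^ (2 - lam) ≤ Nat.card G.edgeSet ∧
      ∀ φ0 : V → Fin n, Nat.card {φ : V → Fin n // Function.Injective φ ∧
        (∀ a b, T.Adj a b → G.Adj (φ a) (φ b)) ∧ ∀ x, root x → φ x = φ0 x} ≤ P := by
  refine lower_of_codim T root lam h0 h1 hT hbal ?_
  intro d v hb s
  obtain ⟨D0, hD0⟩ := codim T root d v hb s
  obtain ⟨C, hC⟩ := hD0 D0 le_rfl
  exact ⟨D0, C, fun p _ σ hσ r a0 i0 ha0 t ht => hC p σ hσ r a0 i0 ha0 t ht⟩

end Pool.Agent.Helper97.RE
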