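import Mathlib

/-!
# Definitions for the lower bound (S07133)

`touch`, `Bal` : balanced rooted graphs; `Par`, `adjP`, `IsCopy` : the random algebraic graph.
-/

set_option autoImplicit false

namespace Pool.Agent.Helper97.RE

/-- number of edges of `T` with an end in `S` -/
noncomputable def touch {V : Type*} (T : SimpleGraph V) (S : Finset V) : ℕ :=
  Nat.card {e : Sym2 V // e ∈ T.edgeSet ∧ ∃ x ∈ S, x ∈ e}

/-- `lam`-balanced rooted graph: `|S| ≤ lam * touch S` for sets of non-roots, equality for all -/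
def Bal {V : Type*} [Fintype V] (T : SimpleGraph V) (root : V → Prop) (lam : ℝ) : Prop :=
  (∃ x, ¬ root x) ∧ (∀ S : Finset V, (∀ x ∈ S, ¬ root x) → (S.card : ℝ) ≤ lam * touch T S) ∧
    ∀ S : Finset V, (∀ x, x ∈ S ↔ ¬ root x) → (S.card : ℝ) = lam * touch T S

/-- parameters of the random algebraic graph: `v` polynomials in `d + d` variables, of degree
`≤ D` in each variable -/
abbrev Par (D d v p : ℕ) : Type := Fin v → ((Fin d ⊕ Fin d) → Fin (D + 1)) → ZMod p

/-- `x ∈ K^d` (left) and `y ∈ K^d` (right) are adjacent -/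
def adjP {D d v p : ℕ} [Fact p.Prime] (K : Type) [Field K] [Algebra (ZMod p) K]
    (c : Par D d v p) (x y : Fin d → K) : Prop :=
  ∀ l, ∑ α : (Fin d ⊕ Fin d) → Fin (D + 1), algebraMap (ZMod p) K (c l α) *
    ∏ i, (Sum.elim x y i) ^ (α i : ℕ) = 0

/-- `y` is a copy of `T` over `K` with the sides `σ` and the roots placed by `r` over `F_p` -/
def IsCopy {V : Type} (T : SimpleGraph V) (root : V → Prop) {D d v p : ℕ} [Fact p.Prime]
    (K : Type) [Field K] [Algebra (ZMod p) K] (c : Par D d v p) (σ : V → Bool)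
    (r : V → Fin d → ZMod p) (y : V → Fin d → K) : Prop :=
  (∀ x, root x → ∀ i, y x i = algebraMap (ZMod p) K (r x i)) ∧
  (∀ a b, T.Adj a b → σ a = false → σ b = true → adjP K c (y a) (y b)) ∧
  (∀ a b, a ≠ b → σ a = σ b → y a ≠ y b)

end Pool.Agent.Helper97.RE
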