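import Pool.Agent.Helper48.RE.Param

/-!
# The lower bound from the codimension estimate
-/

set_option autoImplicit false

namespace Pool.Agent.Helper97.RE

open Finset

/-- the random algebraic graph on `Fin n` -/
def algG {D d v p n : ℕ} [Fact p.Prime] (c : Par D d v p)
    (ι : (Fin d → ZMod p) ⊕ (Fin d → ZMod p) → Fin n) : SimpleGraph (Fin n) :=
  SimpleGraph.fromRel (fun u w => ∃ x y, u = ι (Sum.inl x) ∧ w = ι (Sum.inr y) ∧
    adjP (ZMod p) c x y)

theorem card_edges_ge {D d v p n : ℕ} [Fact p.Prime] (c : Par D d v p)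
    (ι : (Fin d → ZMod p) ⊕ (Fin d → ZMod p) → Fin n) (hι : Function.Injective ι) :
    Nat.card {xy : (Fin d → ZMod p) × (Fin d → ZMod p) // adjP (ZMod p) c xy.1 xy.2} ≤
      Nat.card (algG c ι).edgeSet := by
  have hadj : ∀ x y, adjP (ZMod p) c x y → (algG c ι).Adj (ι (Sum.inl x)) (ι (Sum.inr y)) := by
    intro x y h
    refine ⟨fun h1 => ?_, Or.inl ⟨x, y, rfl, rfl, h⟩⟩
    have := hι h1
    simp at this
  refine Nat.card_le_card_of_injective
    (fun xy => ⟨s(ι (Sum.inl xy.1.1), ι (Sum.inr xy.1.2)), hadj _ _ xy.2⟩) ?_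
  rintro ⟨⟨x, y⟩, h⟩ ⟨⟨x', y'⟩, h'⟩ hxy
  have h1 := congrArg Subtype.val hxy
  simp only [Sym2.eq_iff] at h1
  rcases h1 with ⟨h1, h2⟩ | ⟨h1, h2⟩
  · have h3 := Sum.inl.inj (hι h1)
    have h4 := Sum.inr.inj (hι h2)
    subst h3 h4
    rfl
  · have := hι h1
    simp at this

theorem card_hom_le {V : Type} [Fintype V] (T : SimpleGraph V) (root : V → Prop)
    (hT : ∀ x, ∃ y, T.Adj x y)
    {D d v p n : ℕ} [Fact p.Prime] (c : Par D d v p)
    (ι : (Fin d → ZMod p) ⊕ (Fin d → ZMod p) → Fin n) (hι : Function.Injective ι) (C2 : ℕ)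
    (hc : ∀ (σ : V → Bool), (∀ a b, T.Adj a b → σ a ≠ σ b) → ∀ r : V → Fin d → ZMod p,
        Nat.card {y : V → Fin d → ZMod p // IsCopy T root (ZMod p) c σ r y} ≤ C2)
    (φ0 : V → Fin n) :
    Nat.card {φ : V → Fin n // Function.Injective φ ∧
        (∀ a b, T.Adj a b → (algG c ι).Adj (φ a) (φ b)) ∧ ∀ x, root x → φ x = φ0 x} ≤
      2 ^ Fintype.card V * C2 := by
  classical
  have hp0 : 0 < p := (Fact.out : p.Prime).pos
  have : NeZero p := ⟨hp0.ne'⟩
  set inv : Fin n → (Fin d → ZMod p) ⊕ (Fin d → ZMod p) := Function.invFun ι with hinv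
  have hinvι : ∀ u, inv (ι u) = u := Function.leftInverse_invFun hι
  set r : V → Fin d → ZMod p := fun x => Sum.elim id id (inv (φ0 x)) with hr
  set sd : (Fin d → ZMod p) ⊕ (Fin d → ZMod p) → Bool := fun u => u.isRight with hsd
  -- structure of a homomorphism
  have hstr : ∀ φ : {φ : V → Fin n // Function.Injective φ ∧
        (∀ a b, T.Adj a b → (algG c ι).Adj (φ a) (φ b)) ∧ ∀ x, root x → φ x = φ0 x},
      ∀ a, ι (inv (φ.1 a)) = φ.1 a := by
    intro φ a
    obtain ⟨b, hab⟩ := hT a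
    rcases (φ.2.2.1 a b hab).2 with ⟨x, y, h1, _, _⟩ | ⟨x, y, _, h2, _⟩
    · rw [h1, hinvι]
    · rw [h2, hinvι]
  have hadj : ∀ φ : {φ : V → Fin n // Function.Injective φ ∧
        (∀ a b, T.Adj a b → (algG c ι).Adj (φ a) (φ b)) ∧ ∀ x, root x → φ x = φ0 x},
      ∀ a b, T.Adj a b → (∃ x y, inv (φ.1 a) = Sum.inl x ∧ inv (φ.1 b) = Sum.inr y ∧
        adjP (ZMod p) c x y) ∨ (∃ x y, inv (φ.1 b) = Sum.inl x ∧ inv (φ.1 a) = Sum.inr y ∧
        adjP (ZMod p) c x y) := by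
    intro φ a b hab
    rcases (φ.2.2.1 a b hab).2 with ⟨x, y, h1, h2, h3⟩ | ⟨x, y, h1, h2, h3⟩
    · left
      exact ⟨x, y, by rw [h1, hinvι], by rw [h2, hinvι], h3⟩
    · right
      exact ⟨x, y, by rw [h1, hinvι], by rw [h2, hinvι], h3⟩
  have hvalid : ∀ φ : {φ : V → Fin n // Function.Injective φ ∧
        (∀ a b, T.Adj a b → (algG c ι).Adj (φ a) (φ b)) ∧ ∀ x, root x → φ x = φ0 x},
      (∀ a b, T.Adj a b → sd (inv (φ.1 a)) ≠ sd (inv (φ.1 b))) ∧
      IsCopy T root (ZMod p) c (fun a => sd (inv (φ.1 a))) r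
        (fun a => Sum.elim id id (inv (φ.1 a))) := by
    intro φ
    refine ⟨?_, ?_, ?_, ?_⟩
    · intro a b hab
      rcases hadj φ a b hab with ⟨x, y, h1, h2, _⟩ | ⟨x, y, h1, h2, _⟩
      · rw [h1, h2]; simp [hsd]
      · rw [h1, h2]; simp [hsd]
    · intro x hx i
      simp only
      rw [φ.2.2.2 x hx]
      simp [hr]
    · intro a b hab ha hb
      simp only at ha hb ⊢
      rcases hadj φ a b hab with ⟨x, y, h1, h2, h3⟩ | ⟨x, y, h1, h2, h3⟩
      · rw [h1, h2]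
        simpa using h3
      · rw [h2] at ha
        simp [hsd] at ha
    · intro a b hab hσ h
      simp only at hσ h
      apply hab
      apply φ.2.1
      rw [← hstr φ a, ← hstr φ b]
      congr 1
      rcases ha : inv (φ.1 a) with x | x <;> rcases hb : inv (φ.1 b) with y | y <;>
        rw [ha, hb] at hσ h <;> simp [hsd] at hσ h <;> rw [h]
  have hcov : Nat.card {φ : V → Fin n // Function.Injective φ ∧
        (∀ a b, T.Adj a b → (algG c ι).Adj (φ a) (φ b)) ∧ ∀ x, root x → φ x = φ0 x} ≤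
      Nat.card (Σ σ : V → Bool, {y : V → Fin d → ZMod p // (∀ a b, T.Adj a b → σ a ≠ σ b) ∧
        IsCopy T root (ZMod p) c σ r y}) := by
    refine Nat.card_le_card_of_injective (fun φ => ⟨fun a => sd (inv (φ.1 a)),
      fun a => Sum.elim id id (inv (φ.1 a)), hvalid φ⟩) ?_
    intro φ φ' h
    simp only [Sigma.mk.injEq] at h
    obtain ⟨h1, h2⟩ := h
    have h3 : ∀ (σ σ' : V → Bool) (h : σ = σ') (u : {y : V → Fin d → ZMod p //
        (∀ a b, T.Adj a b → σ a ≠ σ b) ∧ IsCopy T root (ZMod p) c σ r y})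
        (w : {y : V → Fin d → ZMod p //
        (∀ a b, T.Adj a b → σ' a ≠ σ' b) ∧ IsCopy T root (ZMod p) c σ' r y}),
        HEq u w → u.1 = w.1 := by
      intro i i' h u w huw
      subst h
      rw [eq_of_heq huw]
    have h4 := h3 _ _ h1 _ _ h2
    apply Subtype.ext
    funext a
    rw [← hstr φ a, ← hstr φ' a]
    have h5 := congrFun h1 a
    have h6 := congrFun h4 a
    simp only at h5 h6
    congr 1
    rcases ha : inv (φ.1 a) with x | x <;> rcases hb : inv (φ'.1 a) with y | y <;>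
        rw [ha, hb] at h5 h6 <;> simp [hsd] at h5 h6 <;> rw [h6]
  refine hcov.trans ?_
  rw [Nat.card_sigma]
  refine (Finset.sum_le_card_nsmul _ _ C2 (fun σ _ => ?_)).trans ?_
  · by_cases h : ∀ a b, T.Adj a b → σ a ≠ σ b
    · refine le_trans ?_ (hc σ h r)
      refine Nat.card_le_card_of_injective (fun y => ⟨y.1, y.2.2⟩) ?_
      intro y y' hyy
      apply Subtype.ext
      have h5 := congrArg Subtype.val hyy
      exact h5
    · have : IsEmpty {y : V → Fin d → ZMod p // (∀ a b, T.Adj a b → σ a ≠ σ b) ∧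
        IsCopy T root (ZMod p) c σ r y} := ⟨fun y => h y.2.1⟩
      rw [Nat.card_of_isEmpty]
      exact Nat.zero_le _
  · rw [smul_eq_mul, Finset.card_univ]
    refine Nat.mul_le_mul_right _ (le_of_eq ?_)
    rw [Fintype.card_fun, Fintype.card_bool]

/-- choice of the prime -/
theorem exists_prime_size (d p0 : ℕ) (hd : 0 < d) : ∃ N0 : ℕ, ∀ n, N0 ≤ n → ∃ p : ℕ, p.Prime ∧
    p0 ≤ p ∧ 2 * p ^ d ≤ n ∧ n ≤ 2 ^ (d + 1) * p ^ d := by
  refine ⟨2 * (2 * (p0 + 1)) ^ d, ?_⟩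
  intro n hn
  have h1 : p0 + 1 ≤ n := by
    refine le_trans ?_ hn
    have : 2 * (p0 + 1) ≤ (2 * (p0 + 1)) ^ d := Nat.le_self_pow hd.ne' _
    omega
  set k := Nat.findGreatest (fun k => 2 * (2 * k) ^ d ≤ n) n with hk
  have hk1 : 2 * (2 * k) ^ d ≤ n := Nat.findGreatest_spec (P := fun k => 2 * (2 * k) ^ d ≤ n) h1 hn
  have hk2 : p0 + 1 ≤ k := Nat.le_findGreatest h1 hn
  have hk3 : n < 2 * (2 * (k + 1)) ^ d := by
    by_contra hcon
    push Not at hcon
    have h2 : k + 1 ≤ n := by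
      refine le_trans ?_ hcon
      have : 2 * (k + 1) ≤ (2 * (k + 1)) ^ d := Nat.le_self_pow hd.ne' _
      omega
    have := Nat.le_findGreatest (P := fun k => 2 * (2 * k) ^ d ≤ n) h2 hcon
    omega
  obtain ⟨p, hp, hp1, hp2⟩ := Nat.exists_prime_lt_and_le_two_mul k (by omega)
  refine ⟨p, hp, by omega, ?_, ?_⟩
  · refine le_trans ?_ hk1
    exact Nat.mul_le_mul_left _ (Nat.pow_le_pow_left hp2 _)
  · refine hk3.le.trans ?_
    calc 2 * (2 * (k + 1)) ^ d ≤ 2 * (2 * p) ^ d :=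
          Nat.mul_le_mul_left _ (Nat.pow_le_pow_left (by omega) _)
      _ = 2 ^ (d + 1) * p ^ d := by rw [mul_pow, pow_succ]; ring

theorem lower_of_codim {V : Type} [Fintype V] (T : SimpleGraph V) (root : V → Prop) (lam : ℝ)
    (h0 : 0 < lam) (h1 : lam ≤ 1) (hT : ∀ x, ∃ y, T.Adj x y) (hbal : Bal T root lam)
    (hcodim : ∀ d v : ℕ, (∀ S : Finset V, (∀ x ∈ S, ¬ root x) → d * S.card ≤ v * touch T S) →
      ∀ s : ℕ, ∃ D C : ℕ, CodimAt T root d v s D C) :
    ∃ c : ℝ, 0 < c ∧ ∃ P N0 : ℕ, ∀ n, N0 ≤ n → ∃ G : SimpleGraph (Fin n),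
      c * (n : ℝ) ^ (2 - lam) ≤ Nat.card G.edgeSet ∧
      ∀ φ0 : V → Fin n, Nat.card {φ : V → Fin n // Function.Injective φ ∧
        (∀ a b, T.Adj a b → G.Adj (φ a) (φ b)) ∧ ∀ x, root x → φ x = φ0 x} ≤ P := by
  classical
  obtain ⟨⟨x0, hx0⟩, hb1, hb2⟩ := hbal
  set S0 : Finset V := Finset.univ.filter (fun x => ¬ root x) with hS0
  set v := S0.card with hv
  set d := touch T S0 with hd
  have hvd : (v : ℝ) = lam * d := hb2 S0 (by intro x; simp [hS0])
  have hvpos : 0 < v := Finset.card_pos.2 ⟨x0, by simp [hS0, hx0]⟩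
  have hdpos : 0 < d := by
    rcases Nat.eq_zero_or_pos d with h | h
    · rw [h] at hvd
      simp only [Nat.cast_zero, mul_zero, Nat.cast_eq_zero] at hvd
      omega
    · exact h
  have hdR : (0 : ℝ) < d := Nat.cast_pos.2 hdpos
  have hvd' : v ≤ d := by
    have : (v : ℝ) ≤ d := by
      rw [hvd]
      nlinarith
    exact_mod_cast this
  have hbal' : ∀ S : Finset V, (∀ x ∈ S, ¬ root x) → d * S.card ≤ v * touch T S := by
    intro S hS
    have h2 := hb1 S hS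
    have h3 : (d : ℝ) * S.card ≤ v * touch T S := by
      rw [hvd]
      calc (d : ℝ) * S.card ≤ d * (lam * touch T S) := mul_le_mul_of_nonneg_left h2 hdR.le
        _ = lam * d * touch T S := by ring
    exact_mod_cast h3
  obtain ⟨D, C2, p0, hmain⟩ := exists_param T root d v hdpos (hcodim d v hbal' _)
  obtain ⟨N0, hN0⟩ := exists_prime_size d p0 hdpos
  refine ⟨1 / (2 * (2 ^ (d + 1)) ^ 2), by positivity, 2 ^ Fintype.card V * C2, N0, ?_⟩
  intro n hn
  obtain ⟨p, hp, hp0, hpn, hnp⟩ := hN0 n hn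
  have : Fact p.Prime := ⟨hp⟩
  have : NeZero p := ⟨hp.ne_zero⟩
  obtain ⟨c, hc1, hc2⟩ := hmain p hp0
  have hcard : Fintype.card ((Fin d → ZMod p) ⊕ (Fin d → ZMod p)) ≤ Fintype.card (Fin n) := by
    simp only [Fintype.card_sum, Fintype.card_fun, ZMod.card, Fintype.card_fin]
    omega
  obtain ⟨ι⟩ := Function.Embedding.nonempty_of_card_le hcard
  refine ⟨algG c ι, ?_, ?_⟩
  · have h2 := card_edges_ge c ι ι.injective
    set N := Nat.card {xy : (Fin d → ZMod p) × (Fin d → ZMod p) // adjP (ZMod p) c xy.1 xy.2}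
    have h3 : (N : ℝ) ≤ Nat.card (algG c ι).edgeSet := by exact_mod_cast h2
    refine le_trans ?_ h3
    have hpR : (0 : ℝ) < p := Nat.cast_pos.2 hp.pos
    have hc1' : (p : ℝ) ^ (2 * d) ≤ 2 * (p : ℝ) ^ v * N := by exact_mod_cast hc1
    have hnp' : (n : ℝ) ≤ 2 ^ (d + 1) * (p : ℝ) ^ d := by exact_mod_cast hnp
    have h4 : (n : ℝ) ^ (2 - lam) ≤ (2 ^ (d + 1)) ^ 2 * ((p : ℝ) ^ d) ^ (2 - lam) := by
      refine (Real.rpow_le_rpow (Nat.cast_nonneg _) hnp' (by linarith)).trans ?_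
      rw [Real.mul_rpow (by positivity) (by positivity)]
      refine mul_le_mul_of_nonneg_right ?_ (by positivity)
      rw [← Real.rpow_natCast ((2 : ℝ) ^ (d + 1)) 2]
      refine Real.rpow_le_rpow_of_exponent_le (one_le_pow₀ (by norm_num)) ?_
      push_cast
      linarith
    have h5 : ((p : ℝ) ^ d) ^ (2 - lam) * (p : ℝ) ^ v = (p : ℝ) ^ (2 * d) := by
      rw [← Real.rpow_natCast (p : ℝ) d, ← Real.rpow_mul hpR.le, ← Real.rpow_natCast (p : ℝ) v,
        ← Real.rpow_add hpR, ← Real.rpow_natCast (p : ℝ) (2 * d)]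
      congr 1
      rw [hvd]
      push_cast
      ring
    have h6 : ((p : ℝ) ^ d) ^ (2 - lam) ≤ 2 * N := by
      have h7 : (0 : ℝ) < (p : ℝ) ^ v := by positivity
      refine le_of_mul_le_mul_right ?_ h7
      rw [h5]
      linarith
    have h8 : (0 : ℝ) < (2 ^ (d + 1)) ^ 2 := by positivity
    rw [div_mul_eq_mul_div, one_mul, div_le_iff₀ (by positivity)]
    refine h4.trans ?_
    nlinarith
  · intro φ0
    exact card_hom_le T root hT c ι ι.injective C2 hc2 φ0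

end Pool.Agent.Helper97.RE
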