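import Pool.Agent.Helper48.RE.LowerDefs

/-!
# The polynomial system whose solutions are the separated copies
-/

set_option autoImplicit false

namespace Pool.Agent.Helper97.RE

open MvPolynomial Finset

/-- index type of the equations -/
abbrev SysI (V : Type) (d v : ℕ) : Type := (V × Fin d) ⊕ ((V × V × Fin v) ⊕ Unit)

/-- the product of the separating differences -/
noncomputable def sepProd {V : Type} [Fintype V] [DecidableEq V] {d : ℕ} (σ : V → Bool)
    (τ : V → V → Fin d) (R : Type) [CommRing R] (y : V → Fin d → R) : R :=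
  ∏ ab : V × V, if ab.1 ≠ ab.2 ∧ σ ab.1 = σ ab.2 then
    y ab.1 (τ ab.1 ab.2) - y ab.2 (τ ab.1 ab.2) else 1

open Classical in
/-- the system: roots, edges, separation -/
noncomputable def sys {V : Type} [Fintype V] [DecidableEq V] (T : SimpleGraph V) (root : V → Prop)
    {D d v p : ℕ} (c : Par D d v p) (σ : V → Bool) (r : V → Fin d → ZMod p)
    (τ : V → V → Fin d) : SysI V d v → MvPolynomial (Option (V × Fin d)) (ZMod p)
  | Sum.inl (a, i) => if root a then X (some (a, i)) - C (r a i) else 0
  | Sum.inr (Sum.inl (a, b, l)) => if T.Adj a b ∧ σ a = false ∧ σ b = true then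
      ∑ α : (Fin d ⊕ Fin d) → Fin (D + 1), C (c l α) *
        ∏ i, (Sum.elim (fun i => X (some (a, i))) (fun i => X (some (b, i))) i) ^ (α i : ℕ) else 0
  | Sum.inr (Sum.inr _) => X none * sepProd σ τ _ (fun a i => X (some (a, i))) - 1

theorem totalDegree_sepProd {V : Type} [Fintype V] [DecidableEq V] {d p : ℕ} [Fact p.Prime]
    (σ : V → Bool) (τ : V → V → Fin d) :
    (sepProd σ τ (MvPolynomial (Option (V × Fin d)) (ZMod p))
      (fun a i => X (some (a, i)))).totalDegree ≤ Fintype.card V * Fintype.card V := by
  unfold sepProd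
  refine (totalDegree_finsetProd _ _).trans ?_
  refine (Finset.sum_le_card_nsmul _ _ 1 ?_).trans ?_
  · intro ab _
    split_ifs
    · refine (totalDegree_sub _ _).trans ?_
      rw [totalDegree_X, totalDegree_X]
      exact le_rfl
    · rw [totalDegree_one]
      exact Nat.zero_le _
  · rw [Finset.card_univ, Fintype.card_prod, smul_eq_mul, mul_one]

theorem sys_degree {V : Type} [Fintype V] [DecidableEq V] (T : SimpleGraph V) (root : V → Prop)
    {D d v p : ℕ} [Fact p.Prime] (c : Par D d v p) (σ : V → Bool) (r : V → Fin d → ZMod p)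
    (τ : V → V → Fin d) (i : SysI V d v) :
    (sys T root c σ r τ i).totalDegree ≤
      (d + d) * D + (Fintype.card V * Fintype.card V + 1) := by
  rcases i with ⟨a, i⟩ | ⟨a, b, l⟩ | _
  · simp only [sys]
    split_ifs
    · refine (totalDegree_sub _ _).trans ?_
      rw [totalDegree_X, totalDegree_C]
      simp only [zero_le, sup_of_le_left]
      omega
    · simp
  · simp only [sys]
    split_ifs
    · refine (totalDegree_finsetSum _ _).trans ?_
      refine Finset.sup_le ?_
      intro α _
      refine (totalDegree_mul _ _).trans ?_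
      rw [totalDegree_C, zero_add]
      refine (totalDegree_finsetProd _ _).trans ?_
      refine le_trans ?_ (Nat.le_add_right _ _)
      refine (Finset.sum_le_card_nsmul _ _ D ?_).trans ?_
      · intro i _
        refine (totalDegree_pow _ _).trans ?_
        have h1 : (Sum.elim (fun i => (X (some (a, i)) : MvPolynomial (Option (V × Fin d)) (ZMod p)))
            (fun i => X (some (b, i))) i).totalDegree = 1 := by
          rcases i with i | i <;> simp [totalDegree_X]
        rw [h1, mul_one]
        exact Nat.lt_succ_iff.1 (α i).2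
      · rw [Finset.card_univ, Fintype.card_sum, Fintype.card_fin, smul_eq_mul]
    · simp
  · simp only [sys]
    refine (totalDegree_sub _ _).trans ?_
    rw [totalDegree_one]
    refine max_le ?_ (Nat.zero_le _)
    refine (totalDegree_mul _ _).trans ?_
    rw [totalDegree_X]
    have := totalDegree_sepProd (p := p) σ τ
    omega

section sol

variable {V : Type} [Fintype V] [DecidableEq V] (T : SimpleGraph V) (root : V → Prop)
  {D d v p : ℕ} [Fact p.Prime] (c : Par D d v p) (σ : V → Bool) (r : V → Fin d → ZMod p)
  (τ : V → V → Fin d) {E : Type} [Field E] [Algebra (ZMod p) E]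

theorem aeval_sepProd (z : Option (V × Fin d) → E) :
    aeval z (sepProd σ τ (MvPolynomial (Option (V × Fin d)) (ZMod p))
      (fun a i => X (some (a, i)))) = sepProd σ τ E (fun a i => z (some (a, i))) := by
  unfold sepProd
  rw [map_prod]
  refine Finset.prod_congr rfl ?_
  intro ab _
  split_ifs <;> simp

theorem sepProd_ne_zero_iff (y : V → Fin d → E) : sepProd σ τ E y ≠ 0 ↔
    ∀ a b, a ≠ b → σ a = σ b → y a (τ a b) ≠ y b (τ a b) := by
  unfold sepProd
  rw [Finset.prod_ne_zero_iff]
  constructor
  · intro h a b hab hσ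
    have := h (a, b) (Finset.mem_univ _)
    rw [if_pos ⟨hab, hσ⟩] at this
    exact sub_ne_zero.1 this
  · intro h ab _
    split_ifs with h1
    · exact sub_ne_zero.2 (h _ _ h1.1 h1.2)
    · exact one_ne_zero

theorem isCopy_of_sol (z : Option (V × Fin d) → E)
    (hz : ∀ i, aeval z (sys T root c σ r τ i) = 0) :
    IsCopy T root E c σ r (fun a i => z (some (a, i))) := by
  refine ⟨?_, ?_, ?_⟩
  · intro x hx i
    have := hz (Sum.inl (x, i))
    simp only [sys, if_pos hx, map_sub, aeval_X, aeval_C] at this
    exact sub_eq_zero.1 this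
  · intro a b hab ha hb l
    have := hz (Sum.inr (Sum.inl (a, b, l)))
    simp only [sys, if_pos (⟨hab, ha, hb⟩ : T.Adj a b ∧ σ a = false ∧ σ b = true)] at this
    rw [map_sum] at this
    rw [← this]
    refine Finset.sum_congr rfl ?_
    intro α _
    rw [map_mul, aeval_C, map_prod]
    congr 1
    refine Finset.prod_congr rfl ?_
    intro i _
    rcases i with i | i <;> simp
  · intro a b hab hσ h
    have := hz (Sum.inr (Sum.inr ()))
    simp only [sys, map_sub, map_mul, map_one, aeval_sepProd, aeval_X] at this
    have h1 : sepProd σ τ E (fun a i => z (some (a, i))) ≠ 0 := by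
      intro h0
      rw [h0, mul_zero] at this
      simp at this
    exact (sepProd_ne_zero_iff σ τ _).1 h1 a b hab hσ (congrFun h _)

theorem exists_sol_of_isCopy (y : V → Fin d → ZMod p) (hy : IsCopy T root (ZMod p) c σ r y)
    (hτ : ∀ a b, a ≠ b → σ a = σ b → y a (τ a b) ≠ y b (τ a b)) :
    ∃ z : Option (V × Fin d) → E, (∀ i, aeval z (sys T root c σ r τ i) = 0) ∧
      ∀ a i, z (some (a, i)) = algebraMap (ZMod p) E (y a i) := by
  set y' : V → Fin d → E := fun a i => algebraMap (ZMod p) E (y a i) with hy'
  have h1 : sepProd σ τ E y' ≠ 0 := by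
    rw [sepProd_ne_zero_iff]
    intro a b hab hσ h
    exact hτ a b hab hσ ((algebraMap (ZMod p) E).injective h)
  refine ⟨fun o => o.elim (sepProd σ τ E y')⁻¹ (fun ai => y' ai.1 ai.2), ?_, fun a i => rfl⟩
  intro i
  rcases i with ⟨a, i⟩ | ⟨a, b, l⟩ | _
  · simp only [sys]
    split_ifs with ha
    · simp only [map_sub, aeval_X, aeval_C, Option.elim]
      rw [hy']
      simp only
      rw [hy.1 a ha i]
      simp
    · simp
  · simp only [sys]
    split_ifs with hab
    · have h2 := hy.2.1 a b hab.1 hab.2.1 hab.2.2 l
      have h3 := congrArg (algebraMap (ZMod p) E) h2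
      rw [map_zero, map_sum] at h3
      rw [map_sum, ← h3]
      refine Finset.sum_congr rfl ?_
      intro α _
      rw [map_mul, aeval_C, map_prod, map_mul, map_prod]
      congr 1
      refine Finset.prod_congr rfl ?_
      intro i _
      rw [map_pow, map_pow]
      congr 1
      rcases i with i | i <;> simp [hy']
    · simp
  · simp only [sys, map_sub, map_mul, map_one, aeval_sepProd, aeval_X, Option.elim]
    rw [inv_mul_cancel₀ h1, sub_self]

end sol

end Pool.Agent.Helper97.RE
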